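import Pool.Agent.Helper22.SL.Defs

/-!
# T5, block SL: the counts S4 and S5, from S1, S2, S3
-/

namespace Pool.Agent.Helper99.SL

open Finset Pool.Agent.Helper27.T4 Pool.Agent.Helper29.T4 Pool.Agent.Helper22.HW
  Pool.Agent.Helper22.SL

variable {κ : Type*} {P : Pr κ} {I : ℕ} {X : ℕ → ℕ}

theorem TT_update (X : ℕ → ℕ) (d : Dt) (ℓ : Lv) (s : ℕ) :
    ∀ r ≤ s, TT X (d.1, Function.update d.2 s ℓ) r = TT X d r := by
  intro r
  induction r with
  | zero => intro _; rfl
  | succ r ih =>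
    intro h
    have h1 := ih (by omega)
    have h2 : (Function.update d.2 s ℓ) r = d.2 r := Function.update_of_ne (by omega) _ _
    simp only [TT, h1, h2]

theorem TT_update_succ (X : ℕ → ℕ) (d : Dt) (ℓ : Lv) (r : ℕ) :
    TT X (d.1, Function.update d.2 r ℓ) (r + 1) = TT X d r - (ℓ.2.1 + ℓ.2.2) := by
  have h1 := TT_update X d ℓ r r le_rfl
  have h2 : (Function.update d.2 r ℓ) r = ℓ := Function.update_self _ _ _
  simp only [TT, h1, h2]

theorem A_nonneg (P : Pr κ) (r : ℕ) : 0 ≤ P.A r :=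
  prod_nonneg (fun _ _ => by positivity)

theorem W_nonneg (P : Pr κ) (r : ℕ) : 0 ≤ P.W r :=
  prod_nonneg (fun _ _ => by positivity)

theorem A_succ (P : Pr κ) (r : ℕ) : P.A (r + 1) = P.A r * (200 * (P.p r 0 : ℝ) * P.p r 1) := by
  unfold Pr.A; rw [prod_range_succ]

theorem W_succ (P : Pr κ) (r : ℕ) : P.W (r + 1) = P.W r * ((P.q r 2 : ℕ) : ℝ) ^ 2 := by
  unfold Pr.W; rw [prod_range_succ]

theorem pc_nonneg (P : Pr κ) (r : ℕ) : 0 ≤ P.pc r := by
  cases r with
  | zero => simp [Pr.pc]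
  | succ r => simp only [Pr.pc]; positivity

open Classical in
/-- number of data with a given label, from the count for label and target -/
theorem label_card {w : κ → ℕ} {r : ℕ} {c : ℝ} (hc : 0 ≤ c)
    (S1 : ∀ d ∈ CC P w I X r, TT X d r ∈ AP P X r d.1)
    (S2 : ∀ i, ((AP P X r i).card : ℝ) * P.pc r ≤ 10) {i : ℕ}
    (hcnt : ∀ t, (((CC P w I X r).filter (fun d => d.1 = i ∧ TT X d r = t)).card : ℝ) ≤
      c * P.pc r) :
    (((CC P w I X r).filter (fun d => d.1 = i)).card : ℝ) ≤ 10 * c := by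
  have h1 : ((CC P w I X r).filter (fun d => d.1 = i)).card =
      ∑ t ∈ AP P X r i, (((CC P w I X r).filter (fun d => d.1 = i)).filter
        (fun d => TT X d r = t)).card := by
    apply card_eq_sum_card_fiberwise
    intro d hd
    have hd' := mem_filter.1 hd
    have := S1 d hd'.1
    rwa [hd'.2] at this
  rw [h1]
  push_cast
  calc ∑ t ∈ AP P X r i, ((((CC P w I X r).filter (fun d => d.1 = i)).filter
        (fun d => TT X d r = t)).card : ℝ)
      ≤ ∑ _t ∈ AP P X r i, c * P.pc r := by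
        refine sum_le_sum (fun t _ => ?_)
        rw [filter_filter]
        exact hcnt t
    _ = c * (((AP P X r i).card : ℝ) * P.pc r) := by
        rw [sum_const, nsmul_eq_mul]; ring
    _ ≤ c * 10 := mul_le_mul_of_nonneg_left (S2 i) hc
    _ = 10 * c := by ring

open Classical in
/-- **S4** -/
theorem cnt_of (w : κ → ℕ)
    (S1 : ∀ r ≤ P.h, ∀ d ∈ CC P w I X r, d.1 < I ∧ TT X d r ∈ AP P X r d.1)
    (S2 : ∀ r < P.h, ∀ i, ((AP P X r i).card : ℝ) * P.pc r ≤ 10)
    (S3 : ∀ r < P.h, ∀ t t' : ℕ, (((box P r).filter (fun ℓ => Lok P w {0, 1} {0, 1} r t ℓ ∧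
      t - (ℓ.2.1 + ℓ.2.2) = t')).card : ℝ) ≤
      20 * P.p r 0 * P.p r 1 * ((P.q r 2 : ℕ) : ℝ) ^ 2 * P.pc (r + 1)) :
    ∀ r ≤ P.h, ∀ i t : ℕ,
      (((CC P w I X r).filter (fun d => d.1 = i ∧ TT X d r = t)).card : ℝ) ≤
        P.A r * P.pc r * P.W r := by
  intro r
  induction r with
  | zero =>
    intro _ i t
    have h1 : ((CC P w I X 0).filter (fun d => d.1 = i ∧ TT X d 0 = t)).card ≤ 1 := by
      rw [card_le_one]
      intro a ha b hb
      rw [mem_filter] at ha hb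
      obtain ⟨ha1, ha2, _⟩ := ha
      obtain ⟨hb1, hb2, _⟩ := hb
      simp only [CC, mem_image] at ha1 hb1
      obtain ⟨j, _, rfl⟩ := ha1
      obtain ⟨k, _, rfl⟩ := hb1
      simp only at ha2 hb2
      rw [ha2, hb2]
    have h2 : P.A 0 * P.pc 0 * P.W 0 = 1 := by simp [Pr.A, Pr.pc, Pr.W]
    rw [h2]
    exact_mod_cast h1
  | succ r ih =>
    intro hr i t'
    have hr' : r < P.h := by omega
    set c : ℝ := P.A r * P.W r with hc
    have hc0 : 0 ≤ c := mul_nonneg (A_nonneg P r) (W_nonneg P r)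
    have hlab : (((CC P w I X r).filter (fun d => d.1 = i)).card : ℝ) ≤ 10 * c := by
      refine label_card hc0 (fun d hd => (S1 r hr'.le d hd).2) (S2 r hr') (fun t => ?_)
      refine (ih hr'.le i t).trans (le_of_eq ?_)
      rw [hc]; ring
    set G : ℝ := 20 * P.p r 0 * P.p r 1 * ((P.q r 2 : ℕ) : ℝ) ^ 2 * P.pc (r + 1) with hG
    have hsub : (CC P w I X (r + 1)).filter (fun d => d.1 = i ∧ TT X d (r + 1) = t') ⊆
        (((CC P w I X r).filter (fun d => d.1 = i)).biUnion (fun d =>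
          ((box P r).filter (fun ℓ => Lok P w {0, 1} {0, 1} r (TT X d r) ℓ ∧
            TT X d r - (ℓ.2.1 + ℓ.2.2) = t')).image
              (fun ℓ => ((d.1, Function.update d.2 r ℓ) : Dt)))) := by
      intro d' hd'
      rw [mem_filter] at hd'
      obtain ⟨h1, h2, h3⟩ := hd'
      simp only [CC, mem_image, mem_filter, mem_product] at h1
      obtain ⟨⟨d, ℓ⟩, ⟨⟨hd, hℓ⟩, hL⟩, rfl⟩ := h1
      rw [mem_biUnion]
      refine ⟨d, ?_, ?_⟩
      · rw [mem_filter]; exact ⟨hd, h2⟩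
      · rw [mem_image]
        refine ⟨ℓ, ?_, rfl⟩
        rw [mem_filter]
        refine ⟨hℓ, hL, ?_⟩
        rw [← h3]
        exact (TT_update_succ X d ℓ r).symm
    have hcard := (card_le_card hsub).trans card_biUnion_le
    have hcard' : (((CC P w I X (r + 1)).filter
        (fun d => d.1 = i ∧ TT X d (r + 1) = t')).card : ℝ) ≤
        ∑ d ∈ (CC P w I X r).filter (fun d => d.1 = i), G := by
      refine (Nat.cast_le.2 hcard).trans ?_
      push_cast
      refine sum_le_sum (fun d _ => ?_)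
      refine le_trans ?_ (S3 r hr' (TT X d r) t')
      exact_mod_cast card_image_le
    rw [sum_const, nsmul_eq_mul] at hcard'
    have hG0 : 0 ≤ G := by
      have := pc_nonneg P (r + 1)
      positivity
    refine hcard'.trans ((mul_le_mul_of_nonneg_right hlab hG0).trans (le_of_eq ?_))
    rw [A_succ, W_succ, hG, hc]
    ring

open Classical in
/-- **S5** -/
theorem tot_of (w : κ → ℕ)
    (S1 : ∀ r ≤ P.h, ∀ d ∈ CC P w I X r, d.1 < I ∧ TT X d r ∈ AP P X r d.1)
    (S2 : ∀ r < P.h, ∀ i, ((AP P X r i).card : ℝ) * P.pc r ≤ 10)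
    (S3 : ∀ r < P.h, ∀ t t' : ℕ, (((box P r).filter (fun ℓ => Lok P w {0, 1} {0, 1} r t ℓ ∧
      t - (ℓ.2.1 + ℓ.2.2) = t')).card : ℝ) ≤
      20 * P.p r 0 * P.p r 1 * ((P.q r 2 : ℕ) : ℝ) ^ 2 * P.pc (r + 1)) {r : ℕ} (hr : r < P.h) :
    ((CC P w I X r).card : ℝ) ≤ 10 * I * P.A r * P.W r := by
  set c : ℝ := P.A r * P.W r with hc
  have hc0 : 0 ≤ c := mul_nonneg (A_nonneg P r) (W_nonneg P r)
  have h1 : (CC P w I X r).card =
      ∑ i ∈ range I, ((CC P w I X r).filter (fun d => d.1 = i)).card := by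
    apply card_eq_sum_card_fiberwise
    intro d hd
    simpa using (S1 r hr.le d hd).1
  rw [h1]
  push_cast
  calc ∑ i ∈ range I, (((CC P w I X r).filter (fun d => d.1 = i)).card : ℝ)
      ≤ ∑ _i ∈ range I, 10 * c := by
        refine sum_le_sum (fun i _ => ?_)
        refine label_card hc0 (fun d hd => (S1 r hr.le d hd).2) (S2 r hr) (fun t => ?_)
        refine (cnt_of w S1 S2 S3 r hr.le i t).trans (le_of_eq ?_)
        rw [hc]; ring
    _ = 10 * I * P.A r * P.W r := by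
        rw [sum_const, nsmul_eq_mul, card_range, hc]; ring

end Pool.Agent.Helper99.SL
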